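import Pool.Agent.H72.BF.Targets2

open Module

namespace Pool.Agent.H78.BF
open Pool.Agent.H72.BF

section
variable {K F : Type} [Field K] [Field F] [Algebra K F]

theorem mulLeft_inj {e : F} (he : e ≠ 0) : Function.Injective (LinearMap.mulLeft K e) := by
  intro x y h
  simpa [he] using h

theorem finrank_map_mul (A : Submodule K F) {e : F} (he : e ≠ 0) :
    finrank K (A.map (LinearMap.mulLeft K e)) = finrank K A :=
  (Submodule.equivMapOfInjective _ (mulLeft_inj he) A).finrank_eq.symm

theorem mul_fin (A B : Submodule K F) [FiniteDimensional K A] [FiniteDimensional K B] :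
    FiniteDimensional K (A * B : Submodule K F) :=
  Module.Finite.iff_fg.mpr (Submodule.FG.mul (Module.Finite.iff_fg.mp inferInstance)
    (Module.Finite.iff_fg.mp inferInstance))

theorem finrank_le_mul (A B : Submodule K F) [FiniteDimensional K A] [FiniteDimensional K B]
    {b : F} (hb : b ∈ B) (hb0 : b ≠ 0) : finrank K A ≤ finrank K (A * B : Submodule K F) := by
  have : FiniteDimensional K (A * B : Submodule K F) :=
    mul_fin A B
  rw [← finrank_map_mul A hb0]
  apply Submodule.finrank_mono
  rintro _ ⟨a, ha, rfl⟩
  rw [LinearMap.mulLeft_apply, mul_comm b a]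
  exact Submodule.mul_mem_mul (SetLike.mem_coe.mp ha) hb

end

theorem cd : T_CD := by
  intro K F _ _ _ _ A B hA hB hA0 hB0
  obtain ⟨n, hn⟩ : ∃ n, finrank K B = n := ⟨_, rfl⟩
  induction n using Nat.strong_induction_on generalizing A B with
  | _ n ih =>
    obtain ⟨b, hb, hb0⟩ := Submodule.exists_mem_ne_zero_of_ne_bot hB0
    have hle := finrank_le_mul A B hb hb0
    by_cases hn1 : n ≤ 1
    · omega
    -- main case
    by_cases hcase : ∃ a ∈ A, a ≠ 0 ∧ ∃ b ∈ B, b ≠ 0 ∧ ∃ y ∈ B, a / b * y ∉ A
    · obtain ⟨a, ha, ha0, b, hb, hb0, y, hy, hyA⟩ := hcase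
      set e := a / b with he
      have he0 : e ≠ 0 := div_ne_zero ha0 hb0
      set A' := A ⊔ B.map (LinearMap.mulLeft K e) with hA'
      set B' := B ⊓ A.comap (LinearMap.mulLeft K e) with hB'
      have hbB' : b ∈ B' := by
        rw [hB', Submodule.mem_inf]
        refine ⟨hb, ?_⟩
        rw [Submodule.mem_comap, LinearMap.mulLeft_apply, he, div_mul_cancel₀ _ hb0]
        exact ha
      have hB'ne : B' ≠ ⊥ := by
        intro h
        rw [h] at hbB'
        exact hb0 (by simpa using hbB')
      have hA'ne : A' ≠ ⊥ := by
        intro h
        have : a ∈ A' := Submodule.mem_sup_left ha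
        rw [h] at this
        exact ha0 (by simpa using this)
      have hB'fin : FiniteDimensional K B' := Submodule.finiteDimensional_inf_left _ _
      have hBm : FiniteDimensional K (B.map (LinearMap.mulLeft K e)) := inferInstance
      have hA'fin : FiniteDimensional K A' := Submodule.finiteDimensional_sup _ _
      have hlt : finrank K B' < finrank K B := by
        apply Submodule.finrank_lt_finrank_of_lt
        refine lt_of_le_of_ne inf_le_left ?_
        intro h
        have : y ∈ B' := by rw [h]; exact hy
        rw [hB', Submodule.mem_inf, Submodule.mem_comap, LinearMap.mulLeft_apply] at this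
        exact hyA this.2
      have h1 := ih (finrank K B') (by omega) A' B' hA'fin hB'fin hA'ne hB'ne rfl
      have hmul : A' * B' ≤ A * B := by
        rw [Submodule.mul_le]
        intro u hu v hv
        rw [hB', Submodule.mem_inf, Submodule.mem_comap, LinearMap.mulLeft_apply] at hv
        rw [hA', Submodule.mem_sup] at hu
        obtain ⟨p, hp, q, hq, rfl⟩ := hu
        obtain ⟨x, hx, rfl⟩ := hq
        rw [add_mul, LinearMap.mulLeft_apply]
        apply Submodule.add_mem _ (Submodule.mul_mem_mul hp hv.1)
        have : e * x * v = (e * v) * x := by ring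
        rw [this]
        exact Submodule.mul_mem_mul hv.2 hx
      have hABfin : FiniteDimensional K (A * B : Submodule K F) :=
        mul_fin A B
      have h2 := Submodule.finrank_mono hmul
      have h3 := Submodule.finrank_sup_add_finrank_inf_eq A (B.map (LinearMap.mulLeft K e))
      have h4 : A ⊓ B.map (LinearMap.mulLeft K e) = B'.map (LinearMap.mulLeft K e) := by
        ext z
        constructor
        · rintro ⟨hz1, x, hx, rfl⟩
          exact ⟨x, ⟨hx, hz1⟩, rfl⟩
        · rintro ⟨x, ⟨hx1, hx2⟩, rfl⟩
          exact ⟨hx2, x, hx1, rfl⟩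
      rw [h4, finrank_map_mul B' he0, finrank_map_mul B he0, ← hA'] at h3
      omega
    · exfalso
      push Not at hcase
      have hBle : B ≤ Submodule.span K {b} := by
        intro b' hb'
        set c := b' / b with hc
        have hcA : ∀ a ∈ A, c * a ∈ A := by
          intro a ha
          by_cases ha0 : a = 0
          · rw [ha0, mul_zero]; exact A.zero_mem
          have := hcase a ha ha0 b hb hb0 b' hb'
          have e1 : a / b * b' = c * a := by rw [hc]; ring
          rwa [e1] at this
        let φ : Module.End K A := (LinearMap.mulLeft K c).restrict hcA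
        have hnt : Nontrivial A := Submodule.nontrivial_iff_ne_bot.mpr hA0
        obtain ⟨κ, hκ⟩ := Module.End.exists_eigenvalue φ
        obtain ⟨v, hv⟩ := hκ.exists_hasEigenvector
        have hv1 := hv.apply_eq_smul
        have hv0 := hv.2
        have hv2 : c * (v : F) = κ • (v : F) := by
          have := congrArg Subtype.val hv1
          simpa [φ] using this
        have hv3 : (v : F) ≠ 0 := by
          intro h
          exact hv0 (Subtype.ext h)
        have hc2 : c = algebraMap K F κ := by
          rw [Algebra.smul_def] at hv2
          exact mul_right_cancel₀ hv3 hv2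
        have : b' = κ • b := by
          rw [Algebra.smul_def, ← hc2, hc, div_mul_cancel₀ _ hb0]
        rw [this]
        exact Submodule.smul_mem _ _ (Submodule.mem_span_singleton_self b)
      have h5 := Submodule.finrank_mono hBle
      have h6 := finrank_span_le_card (R := K) ({b} : Set F)
      simp at h6
      omega

end Pool.Agent.H78.BF
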