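import Pool.Agent.H72.BF.Targets2
import Pool.Agent.H78.BF.CD

open Module

namespace Pool.Agent.H78.BF
open Pool.Agent.H72.BF

section
variable (K F : Type) [Field K] [Field F] [Algebra K F] (n : ℕ) (x : Fin n → F)

/-- image of the polynomials of degree at most `d` -/
noncomputable def imd (d : ℕ) : Submodule K F :=
  (MvPolynomial.restrictTotalDegree (Fin n) K d).map
    (MvPolynomial.aeval x : MvPolynomial (Fin n) K →ₐ[K] F).toLinearMap

noncomputable def lin1 : Submodule K F :=
  Submodule.span K (Set.range (Fin.cons 1 x : Fin (n + 1) → F))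

instance (d : ℕ) : FiniteDimensional K (imd K F n x d) := by
  unfold imd
  infer_instance

instance : FiniteDimensional K (lin1 K F n x) := by
  unfold lin1
  exact FiniteDimensional.span_of_finite K (Set.finite_range _)

theorem one_mem_imd (d : ℕ) : (1 : F) ∈ imd K F n x d := by
  refine ⟨1, ?_, ?_⟩
  · rw [SetLike.mem_coe, MvPolynomial.mem_restrictTotalDegree, MvPolynomial.totalDegree_one]
    exact Nat.zero_le _
  · simp

theorem imd_mul_le (d : ℕ) : imd K F n x d * lin1 K F n x ≤ imd K F n x (d + 1) := by
  rw [Submodule.mul_le]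
  rintro _ ⟨p, hp, rfl⟩ v hv
  rw [SetLike.mem_coe, MvPolynomial.mem_restrictTotalDegree] at hp
  unfold lin1 at hv
  induction hv using Submodule.span_induction with
  | mem v hv =>
    obtain ⟨i, rfl⟩ := hv
    refine Fin.cases ?_ (fun i => ?_) i
    · refine ⟨p, ?_, ?_⟩
      · rw [SetLike.mem_coe, MvPolynomial.mem_restrictTotalDegree]
        omega
      · simp
    · refine ⟨p * MvPolynomial.X i, ?_, ?_⟩
      · rw [SetLike.mem_coe, MvPolynomial.mem_restrictTotalDegree]
        have h1 := MvPolynomial.totalDegree_mul p (MvPolynomial.X i)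
        have h2 : (MvPolynomial.X i : MvPolynomial (Fin n) K).totalDegree = 1 :=
          MvPolynomial.totalDegree_X i
        omega
      · simp
  | zero => rw [mul_zero]; exact Submodule.zero_mem _
  | add u v _ _ hu hv => rw [mul_add]; exact Submodule.add_mem _ hu hv
  | smul c v _ hv => rw [mul_smul_comm]; exact Submodule.smul_mem _ _ hv

end

theorem cdp : T_CDP := by
  intro K F _ _ _ _ n d x hx
  have hne : ∀ d, imd K F n x d ≠ ⊥ := by
    intro d h
    have := one_mem_imd K F n x d
    rw [h] at this
    simp at this
  have hne1 : lin1 K F n x ≠ ⊥ := by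
    intro h
    have : (1 : F) ∈ lin1 K F n x := Submodule.subset_span ⟨0, by simp⟩
    rw [h] at this
    simp at this
  have hlin : finrank K (lin1 K F n x) = n + 1 := by
    unfold lin1
    rw [finrank_span_eq_card hx, Fintype.card_fin]
  change n * d + 1 ≤ finrank K (imd K F n x d)
  induction d with
  | zero =>
    have := hne 0
    rw [mul_zero, zero_add, Nat.one_le_iff_ne_zero]
    intro h
    exact this (Submodule.finrank_eq_zero.mp h)
  | succ d ih =>
    have h1 := cd K F (imd K F n x d) (lin1 K F n x) inferInstance inferInstance (hne d) hne1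
    have h2 := Submodule.finrank_mono (imd_mul_le K F n x d)
    rw [hlin] at h1
    have h3 : n * (d + 1) = n * d + n := by ring
    omega

end Pool.Agent.H78.BF
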