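import Pool.Agent.H72.BF.Targets
import Pool.Agent.H72.BF.Targets2
import Pool.Agent.H78.BF.CDP

open Module Filter

namespace Pool.Agent.H78.BF
open Pool.Agent.H72.BF

/-- the exponent of an index -/
noncomputable def fs {n d : ℕ} (m : Mon n d) : Fin n →₀ ℕ :=
  Finsupp.equivFunOnFinite.symm (fun i => ((m.1 i : Fin (d + 1)) : ℕ))

theorem fs_apply {n d : ℕ} (m : Mon n d) (i : Fin n) : fs m i = (m.1 i : ℕ) := rfl

theorem fs_surj {n d : ℕ} (s : Fin n →₀ ℕ) (hs : ∑ i, s i ≤ d) : ∃ m : Mon n d, fs m = s := by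
  have hi : ∀ i, s i < d + 1 := fun i => Nat.lt_succ_of_le
    ((Finset.single_le_sum (fun _ _ => Nat.zero_le _) (Finset.mem_univ i)).trans hs)
  refine ⟨⟨fun i => ⟨s i, hi i⟩, hs⟩, ?_⟩
  ext i
  rfl

/-- coefficient map -/
noncomputable def cfm (K : Type) [Field K] (n d : ℕ) :
    MvPolynomial (Fin n) K →ₗ[K] (Mon n d → K) where
  toFun p := fun m => p.coeff (fs m)
  map_add' p q := by
    funext m
    simp
  map_smul' c p := by
    funext m
    simp

theorem cfm_apply (K : Type) [Field K] (n d : ℕ) (p : MvPolynomial (Fin n) K) (m : Mon n d) :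
    cfm K n d p m = p.coeff (fs m) := rfl

theorem coeff_eq_zero_of {K : Type} [CommRing K] {n d : ℕ} {p : MvPolynomial (Fin n) K}
    (hp : p.totalDegree ≤ d) {s : Fin n →₀ ℕ} (hs : ¬ ∑ i, s i ≤ d) : p.coeff s = 0 := by
  by_contra h
  have h1 := MvPolynomial.le_totalDegree (MvPolynomial.mem_support_iff.mpr h)
  rw [Finsupp.sum_fintype _ _ (fun _ => rfl)] at h1
  exact hs (h1.trans hp)

theorem cfm_inj {K : Type} [Field K] {n d : ℕ} {p : MvPolynomial (Fin n) K}
    (hp : p.totalDegree ≤ d) (h : cfm K n d p = 0) : p = 0 := by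
  ext s
  rw [MvPolynomial.coeff_zero]
  by_cases hs : ∑ i, s i ≤ d
  · obtain ⟨m, rfl⟩ := fs_surj s hs
    exact congrFun h m
  · exact coeff_eq_zero_of hp hs

theorem li_coeff {K : Type} [Field K] {n d r : ℕ} (v : Fin r → MvPolynomial (Fin n) K)
    (hv : ∀ s, (v s).totalDegree ≤ d) (hli : LinearIndependent K v) :
    LinearIndependent K (fun (s : Fin r) (m : Mon n d) => (v s).coeff (fs m)) := by
  rw [Fintype.linearIndependent_iff] at hli ⊢
  intro g hg
  apply hli g
  have h1 : cfm K n d (∑ s, g s • v s) = 0 := by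
    rw [map_sum, ← hg]
    apply Finset.sum_congr rfl
    intro s _
    rw [map_smul]
    rfl
  apply cfm_inj (d := d) _ h1
  rw [← MvPolynomial.mem_restrictTotalDegree]
  apply Submodule.sum_mem
  intro s _
  apply Submodule.smul_mem
  rw [MvPolynomial.mem_restrictTotalDegree]
  exact hv s

theorem finrank_restrict_le (K : Type) [Field K] (n d : ℕ) (hS : T_SUMA) :
    finrank K (MvPolynomial.restrictTotalDegree (Fin n) K d) ≤ (n + d).choose n := by
  have hinj : Function.Injective
      ((cfm K n d).domRestrict (MvPolynomial.restrictTotalDegree (Fin n) K d)) := by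
    rw [injective_iff_map_eq_zero]
    rintro ⟨p, hp⟩ h
    rw [MvPolynomial.mem_restrictTotalDegree] at hp
    exact Subtype.ext (cfm_inj hp h)
  have h1 := LinearMap.finrank_le_finrank_of_injective hinj
  rwa [Module.finrank_fintype_fun_eq_card, hS.1 n d] at h1

theorem totalDegree_map_le' {R S : Type} [CommRing R] [CommRing S] {n : ℕ} (f : R →+* S)
    (p : MvPolynomial (Fin n) R) : (MvPolynomial.map f p).totalDegree ≤ p.totalDegree := by
  unfold MvPolynomial.totalDegree
  exact Finset.sup_mono (MvPolynomial.support_map_subset f p)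

/-- choice of `r` independent vectors in the span -/
theorem exists_li {V : Type} [AddCommGroup V] [Module ℚ V] (S : Set V)
    (hfin : FiniteDimensional ℚ (Submodule.span ℚ S)) (r : ℕ)
    (hr : r ≤ finrank ℚ (Submodule.span ℚ S)) :
    ∃ v : Fin r → V, (∀ s, v s ∈ S) ∧ LinearIndependent ℚ v := by
  obtain ⟨b, hbS, hspan, hli⟩ := exists_linearIndependent ℚ S
  have hfin' : FiniteDimensional ℚ (Submodule.span ℚ b) := by rw [hspan]; exact hfin
  have hbfin : Finite b := by
    have h2 : LinearIndependent ℚ (fun x : b => (⟨x.1, Submodule.subset_span x.2⟩ :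
        Submodule.span ℚ b)) := by
      apply LinearIndependent.of_comp (Submodule.span ℚ b).subtype
      exact hli
    exact h2.finite
  have := Fintype.ofFinite b
  have hcard : Fintype.card b = finrank ℚ (Submodule.span ℚ S) := by
    rw [← hspan]
    have h3 := finrank_span_eq_card hli
    rw [Subtype.range_coe] at h3
    exact h3.symm
  have hle : Fintype.card (Fin r) ≤ Fintype.card b := by
    rw [Fintype.card_fin, hcard]
    exact hr
  obtain ⟨e⟩ := Function.Embedding.nonempty_of_card_le hle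
  refine ⟨fun s => (e s : V), fun s => hbS (e s).2, ?_⟩
  exact hli.comp e e.injective

theorem count_le {K F : Type} [Field K] [Field F] [Algebra K F] (n d r : ℕ) (x : Fin n → F)
    (Q : Fin r → MvPolynomial (Fin n) K) (hQdeg : ∀ s, (Q s).totalDegree ≤ d)
    (hQval : ∀ s, MvPolynomial.aeval x (Q s) = 0) (hQli : LinearIndependent K Q) :
    r + finrank K ((MvPolynomial.restrictTotalDegree (Fin n) K d).map
      (MvPolynomial.aeval x : MvPolynomial (Fin n) K →ₐ[K] F).toLinearMap) ≤
      finrank K (MvPolynomial.restrictTotalDegree (Fin n) K d) := by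
  set ψ := (MvPolynomial.aeval x :
    MvPolynomial (Fin n) K →ₐ[K] F).toLinearMap.domRestrict
      (MvPolynomial.restrictTotalDegree (Fin n) K d) with hψ
  have hrank := LinearMap.finrank_range_add_finrank_ker ψ
  rw [hψ, LinearMap.range_domRestrict, ← hψ] at hrank
  have hker : r ≤ finrank K (LinearMap.ker ψ) := by
    have hli2 : LinearIndependent K (fun s : Fin r => (⟨⟨Q s, by
        rw [MvPolynomial.mem_restrictTotalDegree]; exact hQdeg s⟩, by
        rw [LinearMap.mem_ker, hψ, LinearMap.domRestrict_apply]; exact hQval s⟩ :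
          LinearMap.ker ψ)) := by
      apply LinearIndependent.of_comp (LinearMap.ker ψ).subtype
      apply LinearIndependent.of_comp (MvPolynomial.restrictTotalDegree (Fin n) K d).subtype
      exact hQli
    have := hli2.fintype_card_le_finrank
    rwa [Fintype.card_fin] at this
  omega

theorem sub (hBF : T_BF) (hPKG : T_PKG) (hBFF : T_BFF) (hEVP : T_EVP) (hMNR : T_MNR)
    (hSUMA : T_SUMA) : T_SUB := by
  intro n lam hlam halg d
  by_contra hcon
  push Not at hcon
  obtain ⟨r, hr⟩ : ∃ r, r = (n + d).choose n - n * d := ⟨_, rfl⟩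
  have hstep : ∀ j : ℕ, ∃ H : ℝ, 2 ≤ H ∧ ∃ p : Fin r →
      MvPolynomial (Fin n) ℤ, (∀ s, p s ∈ Exc n lam d ((j : ℝ) + 1) H) ∧
      LinearIndependent ℚ (fun s => MvPolynomial.map (Int.castRingHom ℚ) (p s)) := by
    intro j
    obtain ⟨H, hH, hW⟩ := hcon ((j : ℝ) + 1) (by positivity)
    refine ⟨H, hH, ?_⟩
    set S : Set (MvPolynomial (Fin n) ℚ) :=
      (fun P => MvPolynomial.map (Int.castRingHom ℚ) P) '' Exc n lam d ((j : ℝ) + 1) H with hS
    have hSle : Submodule.span ℚ S ≤ MvPolynomial.restrictTotalDegree (Fin n) ℚ d := by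
      rw [Submodule.span_le]
      rintro _ ⟨P, hP, rfl⟩
      rw [SetLike.mem_coe, MvPolynomial.mem_restrictTotalDegree]
      exact (totalDegree_map_le' _ P).trans hP.1
    have hfin : FiniteDimensional ℚ (Submodule.span ℚ S) :=
      Submodule.finiteDimensional_of_le hSle
    have hr' : r ≤ finrank ℚ (Submodule.span ℚ S) := by
      by_contra hlt
      push Not at hlt
      obtain ⟨P, hP, hPn⟩ := hW (Submodule.span ℚ S) hSle (by omega)
      exact hPn (Submodule.subset_span ⟨P, hP, rfl⟩)
    obtain ⟨v, hvS, hvli⟩ := exists_li S hfin _ hr'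
    choose p hp hpv using hvS
    refine ⟨p, hp, ?_⟩
    have : (fun s => MvPolynomial.map (Int.castRingHom ℚ) (p s)) = v := by
      funext s
      exact hpv s
    rw [this]
    exact hvli
  choose H hH p hpE hpli using hstep
  obtain ⟨P⟩ := hPKG H hH
  have hHpow : ∀ j (c : ℕ), 1 ≤ H j ^ c := fun j c => one_le_pow₀ (by linarith [hH j])
  have hBd : ∀ (s : Fin r) (m : Fin n →₀ ℕ), P.Bd (fun j => (p j s).coeff m) := by
    intro s m
    apply P.bd_of_le 1
    intro j
    rw [pow_one]
    exact (hpE j s).2.1 m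
  -- independence of the coefficient vectors over F
  have hLI := hMNR H P r (Mon n d) (fun j s m => (p j s).coeff (fs m))
    (fun s m => hBd s (fs m)) (by
      intro j
      have h1 := li_coeff (fun s => MvPolynomial.map (Int.castRingHom ℚ) (p j s))
        (fun s => (totalDegree_map_le' _ _).trans (hpE j s).1) (hpli j)
      have h2 : (fun (s : Fin r) (m : Mon n d) => (((p j s).coeff (fs m) : ℤ) : ℚ)) =
          fun s m => (MvPolynomial.map (Int.castRingHom ℚ) (p j s)).coeff (fs m) := by
        funext s m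
        rw [MvPolynomial.coeff_map]
        simp
      rw [h2]
      exact h1)
  -- the residues of the polynomials
  have hev : ∀ s : Fin r, ∃ Q' : MvPolynomial (Fin n) P.kk, Q'.totalDegree ≤ d ∧
      (∀ m : Fin n →₀ ℕ, ((Q'.coeff m : P.kk) : P.F) = P.evZ (fun j => (p j s).coeff m)) ∧
      MvPolynomial.aeval (fun i => P.cst (lam i)) Q' = 0 := by
    intro s
    obtain ⟨Q', hd', hc', hx'⟩ := hEVP H P (Fin n) d 1 (fun j => p j s) (fun j => (hpE j s).1)
      (fun j m => by rw [pow_one]; exact (hpE j s).2.1 m)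
    refine ⟨Q', hd', hc', ?_⟩
    obtain ⟨hmem, hval⟩ := hx' (fun _ i => lam i) (fun i => P.const_mem (lam i))
    have e1 : (fun i => P.cst (lam i)) = fun i => P.ev (fun _ => lam i) := rfl
    rw [e1, hval, P.ev_eq_zero hmem]
    intro c
    have hge : ∀ᶠ j in (hyperfilter ℕ : Filter ℕ), c ≤ j :=
      Nat.hyperfilter_le_atTop (eventually_ge_atTop c)
    filter_upwards [hge] with j hj
    have h1 := (hpE j s).2.2
    have hH1 : 1 ≤ H j := by linarith [hH j]
    have h2 : H j ^ c ≤ H j ^ ((j : ℝ) + 1) := by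
      rw [← Real.rpow_natCast]
      apply Real.rpow_le_rpow_of_exponent_le hH1
      have : (c : ℝ) ≤ j := by exact_mod_cast hj
      linarith
    calc ‖MvPolynomial.aeval lam (p j s)‖ * H j ^ c
        ≤ ‖MvPolynomial.aeval lam (p j s)‖ * H j ^ ((j : ℝ) + 1) :=
          mul_le_mul_of_nonneg_left h2 (norm_nonneg _)
      _ ≤ 1 := by rw [mul_comm]; exact h1.le
  choose Q' hQd hQc hQ0 using hev
  -- transfer to kb
  set Q : Fin r → MvPolynomial (Fin n) P.kb :=
    fun s => MvPolynomial.map (algebraMap P.kk P.kb) (Q' s) with hQ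
  have hQdeg : ∀ s, (Q s).totalDegree ≤ d := fun s => (totalDegree_map_le' _ _).trans (hQd s)
  have hQcoeff : ∀ s m, (((Q s).coeff m : P.kb) : P.F) = P.evZ (fun j => (p j s).coeff m) := by
    intro s m
    rw [hQ]
    simp only
    rw [MvPolynomial.coeff_map, ← hQc s m]
    rfl
  have hQval : ∀ s, MvPolynomial.aeval (fun i => P.cst (lam i)) (Q s) = 0 := by
    intro s
    rw [hQ]
    simp only
    rw [MvPolynomial.aeval_map_algebraMap]
    exact hQ0 s
  have hQli : LinearIndependent P.kb Q := by
    rw [Fintype.linearIndependent_iff] at hLI ⊢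
    intro g hg s
    have h1 : ∑ s, (g s : P.F) • (fun m : Mon n d => P.evZ (fun j => (p j s).coeff (fs m))) = 0 := by
      funext m
      rw [Finset.sum_apply, Pi.zero_apply]
      have h2 := congrArg (fun q => ((MvPolynomial.coeff (fs m) q : P.kb) : P.F)) hg
      simp only [MvPolynomial.coeff_zero, ZeroMemClass.coe_zero] at h2
      rw [← h2, MvPolynomial.coeff_sum]
      rw [AddSubmonoidClass.coe_finsetSum]
      apply Finset.sum_congr rfl
      intro s _
      rw [MvPolynomial.coeff_smul, Pi.smul_apply, smul_eq_mul, smul_eq_mul, ← hQcoeff]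
      rfl
    have h3 := hLI (fun s => (g s : P.F)) h1 s
    exact Subtype.ext h3
  -- count
  have hBFx := hBFF hBF n lam hlam halg H P
  have hcdp := cdp P.kb P.F n d (fun j => P.cst (lam j)) hBFx
  have hker := count_le n d r (fun j => P.cst (lam j)) Q hQdeg hQval hQli
  have hle := finrank_restrict_le P.kb n d hSUMA
  omega

end Pool.Agent.H78.BF
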