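import Pool.Agent.H72.BF.Targets2

namespace Pool.Agent.H78.BF
open Pool.Agent.H72.BF

/-- specialisation -/
theorem spc : T_SPC := by
  intro K F _ _ _ _ r y f hf
  set I : Ideal (MvPolynomial (Fin r) K) :=
    RingHom.ker (MvPolynomial.aeval y : MvPolynomial (Fin r) K →ₐ[K] F) with hI
  have hprime : I.IsPrime := RingHom.ker_isPrime _
  have hns := MvPolynomial.IsPrime.vanishingIdeal_zeroLocus (k := K) (K := K) I
  have hfI : f ∉ I := by
    rw [hI, RingHom.mem_ker]
    exact hf
  rw [← hns, MvPolynomial.mem_vanishingIdeal_iff] at hfI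
  push Not at hfI
  obtain ⟨a, ha, hfa⟩ := hfI
  refine ⟨a, ?_, ?_⟩
  · intro g hg
    have := ha g (by rw [hI, RingHom.mem_ker]; exact hg)
    rw [← MvPolynomial.coe_aeval_eq_eval]
    exact this
  · rw [← MvPolynomial.coe_aeval_eq_eval]
    exact hfa

end Pool.Agent.H78.BF
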