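import Pool.Agent.H72.BF.Targets

open Polynomial Finset

namespace Pool.Agent.H78.BF
open Pool.Agent.H72.BF

theorem ne_of_sphere {x z : ℂ} {ρ : ℝ} (hx : ‖x‖ < ρ) (hz : z ∈ Metric.sphere (0 : ℂ) ρ) :
    z - x ≠ 0 := by
  intro h
  rw [mem_sphere_zero_iff_norm] at hz
  have : z = x := sub_eq_zero.mp h
  rw [this] at hz
  linarith

theorem cauchy_aux (x : ℂ) (ρ : ℝ) (hx : ‖x‖ < ρ) (n : ℕ) : ∀ (f : ℂ → ℂ), Differentiable ℂ f →
    (∮ z in C(0, ρ), f z / (z - x) ^ (n + 1)) =
      2 * Real.pi * Complex.I * iteratedDeriv n f x / n.factorial := by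
  have hρ : 0 < ρ := lt_of_le_of_lt (norm_nonneg x) hx
  induction n with
  | zero =>
    intro f hf
    have h := hf.differentiableOn (s := Metric.closedBall (0 : ℂ) ρ) |>.circleIntegral_sub_inv_smul
      (w := x) (c := 0) (R := ρ) (by rw [mem_ball_zero_iff]; exact hx)
    simp only [smul_eq_mul] at h
    rw [iteratedDeriv_zero, Nat.factorial_zero, Nat.cast_one, div_one, ← h]
    congr 1
    funext z
    rw [zero_add, pow_one, div_eq_inv_mul]
  | succ n ih =>
    intro f hf
    have hf' : Differentiable ℂ (deriv f) := hf.deriv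
    have h1 := ih (deriv f) hf'
    have hcont : ∀ (g : ℂ → ℂ) (k : ℕ), Continuous g →
        CircleIntegrable (fun z => g z / (z - x) ^ k) 0 ρ := by
      intro g k hg
      apply ContinuousOn.circleIntegrable hρ.le
      apply ContinuousOn.div hg.continuousOn (by fun_prop)
      intro z hz
      exact pow_ne_zero _ (ne_of_sphere hx hz)
    have h2 : (∮ z in C(0, ρ), (deriv f z / (z - x) ^ (n + 1) -
        ((n : ℂ) + 1) * (f z / (z - x) ^ (n + 1 + 1)))) = 0 := by
      apply circleIntegral.integral_eq_zero_of_hasDerivWithinAt hρ.le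
        (f := fun z => f z / (z - x) ^ (n + 1))
      intro z hz
      have hne := ne_of_sphere hx hz
      have hd : HasDerivAt f (deriv f z) z := (hf z).hasDerivAt
      have hp : HasDerivAt (fun z : ℂ => (z - x) ^ (n + 1))
          (((n : ℂ) + 1) * (z - x) ^ n) z := by
        have := ((hasDerivAt_id' z).sub_const x).fun_pow (n + 1)
        simpa using this
      have hq := hd.fun_div hp (pow_ne_zero _ hne)
      have hval : deriv f z / (z - x) ^ (n + 1) - ((n : ℂ) + 1) * (f z / (z - x) ^ (n + 1 + 1)) =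
          (deriv f z * (z - x) ^ (n + 1) - f z * (((n : ℂ) + 1) * (z - x) ^ n)) /
            ((z - x) ^ (n + 1)) ^ 2 := by
        rw [div_sub' (pow_ne_zero _ hne), div_eq_div_iff (pow_ne_zero _ hne)
          (pow_ne_zero _ (pow_ne_zero _ hne))]
        have e : (z - x) ^ (n + 1) * (((n : ℂ) + 1) * (f z / (z - x) ^ (n + 1 + 1))) =
          ((n : ℂ) + 1) * f z / (z - x) := by
          field_simp
          ring
        rw [e]
        field_simp
        ring
      rw [hval]
      exact hq.hasDerivWithinAt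
    have hi1 := hcont (deriv f) (n + 1) hf'.continuous
    have hi2 : CircleIntegrable (fun z => ((n : ℂ) + 1) * (f z / (z - x) ^ (n + 1 + 1))) 0 ρ :=
      (hcont f (n + 1 + 1) hf.continuous).const_fun_smul (a := ((n : ℂ) + 1))
    rw [circleIntegral.integral_sub hi1 hi2, circleIntegral.integral_const_mul] at h2
    rw [iteratedDeriv_succ', Nat.factorial_succ]
    rw [h1] at h2
    have hn : ((n : ℂ) + 1) ≠ 0 := by exact_mod_cast Nat.succ_ne_zero n
    have hfac : ((n.factorial : ℕ) : ℂ) ≠ 0 := by exact_mod_cast n.factorial_ne_zero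
    have h3 := (sub_eq_zero.mp h2).symm
    have h4 : (∮ z in C(0, ρ), f z / (z - x) ^ (n + 1 + 1)) =
        (2 * Real.pi * Complex.I * iteratedDeriv n (deriv f) x / n.factorial) / ((n : ℂ) + 1) := by
      rw [eq_div_iff hn, mul_comm]
      exact h3
    rw [h4]
    push_cast
    field_simp

/-- divided difference with equal nodes -/
theorem dde : T_DDE := by
  intro f τ a ℓ ρ hf hτ hdiv hρ
  unfold DD
  have hx : ‖nd τ a‖ < ρ := by
    unfold nd
    rw [Complex.norm_natCast]
    exact hρ
  have hnodes : ∀ k ∈ Finset.range (ℓ + 1), nd τ (a + k) = nd τ a := by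
    intro k hk
    rw [Finset.mem_range] at hk
    unfold nd
    have h1 : a / τ ≤ (a + k) / τ := Nat.div_le_div_right (by omega)
    have h2 : (a + k) / τ ≤ (a + ℓ) / τ := Nat.div_le_div_right (by omega)
    have : (a + k) / τ = a / τ := by omega
    rw [this]
  have hint : (∮ ζ in C(0, ρ), f ζ / ∏ k ∈ Finset.range (ℓ + 1), (ζ - nd τ (a + k))) =
      ∮ ζ in C(0, ρ), f ζ / (ζ - nd τ a) ^ (ℓ + 1) := by
    congr 1
    funext ζ
    congr 1
    rw [Finset.prod_congr rfl (fun k hk => by rw [hnodes k hk])]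
    rw [Finset.prod_const, Finset.card_range]
  rw [hint, cauchy_aux (nd τ a) ρ hx ℓ f hf]
  have hpi : (2 * Real.pi * Complex.I : ℂ) ≠ 0 := by
    simp [Real.pi_ne_zero]
  field_simp

end Pool.Agent.H78.BF
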