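import Pool.Agent.H72.BF.Targets
import Pool.Agent.H78.BF.DDE

open Polynomial Finset

namespace Pool.Agent.H78.BF
open Pool.Agent.H72.BF

theorem newton_kernel (x : ℕ → ℂ) (z w : ℂ) (hz : ∀ k, z - x k ≠ 0) (hw : z - w ≠ 0) (M : ℕ) :
    (z - w)⁻¹ = ∑ i ∈ range M, (∏ k ∈ range i, (w - x k)) / ∏ k ∈ range (i + 1), (z - x k) +
      (∏ k ∈ range M, (w - x k)) / ((∏ k ∈ range M, (z - x k)) * (z - w)) := by
  induction M with
  | zero => simp
  | succ M ih =>
    rw [ih, Finset.sum_range_succ, add_assoc]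
    congr 1
    rw [Finset.prod_range_succ _ M, Finset.prod_range_succ (fun k => w - x k) M]
    have hP : ∏ k ∈ range M, (z - x k) ≠ 0 := Finset.prod_ne_zero_iff.mpr fun k _ => hz k
    have hM := hz M
    generalize ∏ k ∈ range M, (z - x k) = P at *
    generalize ∏ k ∈ range M, (w - x k) = Q at *
    field_simp
    ring

theorem nd_norm_lt {τ S : ℕ} (_hτ : 1 ≤ τ) {k : ℕ} (hk : k < τ * S) : ‖nd τ k‖ ≤ S := by
  unfold nd
  rw [Complex.norm_natCast]
  have : k / τ < S := Nat.div_lt_of_lt_mul hk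
  exact_mod_cast this.le

/-- the divided difference integrals at bounded nodes are circle integrable -/
theorem dd_integrable (f : ℂ → ℂ) (ρ : ℝ) (hρ : 0 ≤ ρ) (hf : Differentiable ℂ f) (n : ℕ)
    (x : ℕ → ℂ) (hx : ∀ k ∈ range n, ‖x k‖ < ρ) :
    CircleIntegrable (fun z => f z / ∏ k ∈ range n, (z - x k)) 0 ρ := by
  apply ContinuousOn.circleIntegrable hρ
  apply ContinuousOn.div hf.continuous.continuousOn (by fun_prop)
  intro z hz
  exact Finset.prod_ne_zero_iff.mpr fun k hk => ne_of_sphere (hx k hk) hz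

/-- Newton interpolation with remainder -/
theorem ddn : T_DDN := by
  intro f τ S ρ K w hf hτ hS hw hK hfK
  have hρ : 0 < ρ := lt_of_le_of_lt (norm_nonneg w) hw
  have hpi : (2 * Real.pi * Complex.I : ℂ) ≠ 0 := by
    simp [Real.pi_ne_zero]
  -- nodes, cut off
  set x : ℕ → ℂ := fun k => if k < τ * S then nd τ k else 0 with hxdef
  have hxn : ∀ k, ‖x k‖ ≤ S := by
    intro k
    simp only [hxdef]
    split_ifs with h
    · exact nd_norm_lt hτ h
    · simp
  have hxl : ∀ k, ‖x k‖ < ρ := fun k => lt_of_le_of_lt (hxn k) hS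
  have hxe : ∀ k, k < τ * S → x k = nd τ k := by
    intro k hk
    simp only [hxdef, if_pos hk]
  -- Cauchy
  have hc := hf.differentiableOn (s := Metric.closedBall (0 : ℂ) ρ) |>.circleIntegral_sub_inv_smul
      (w := w) (c := 0) (R := ρ) (by rw [mem_ball_zero_iff]; exact hw)
  simp only [smul_eq_mul] at hc
  have hker : (∮ z in C(0, ρ), (z - w)⁻¹ * f z) =
      ∮ z in C(0, ρ), (∑ i ∈ range (τ * S), (∏ k ∈ range i, (w - x k)) *
        (f z / ∏ k ∈ range (i + 1), (z - x k)) +
        f z * ((∏ k ∈ range (τ * S), (w - x k)) / ((∏ k ∈ range (τ * S), (z - x k)) * (z - w)))) := by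
    apply circleIntegral.integral_congr hρ.le
    intro z hz
    simp only
    rw [newton_kernel x z w (fun k => ne_of_sphere (hxl k) hz) (ne_of_sphere hw hz) (τ * S),
      add_mul, Finset.sum_mul]
    congr 1
    · apply Finset.sum_congr rfl
      intro i _
      ring
    · ring
  have hint1 : ∀ i ∈ range (τ * S), CircleIntegrable (fun z => (∏ k ∈ range i, (w - x k)) *
        (f z / ∏ k ∈ range (i + 1), (z - x k))) 0 ρ := by
    intro i _
    exact (dd_integrable f ρ hρ.le hf (i + 1) x fun k _ => hxl k).const_fun_smul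
      (a := ∏ k ∈ range i, (w - x k))
  have hint2 : CircleIntegrable (fun z => f z * ((∏ k ∈ range (τ * S), (w - x k)) /
      ((∏ k ∈ range (τ * S), (z - x k)) * (z - w)))) 0 ρ := by
    apply ContinuousOn.circleIntegrable hρ.le
    apply ContinuousOn.mul hf.continuous.continuousOn
    apply ContinuousOn.div continuousOn_const (by fun_prop)
    intro z hz
    exact mul_ne_zero (Finset.prod_ne_zero_iff.mpr fun k _ => ne_of_sphere (hxl k) hz)
      (ne_of_sphere hw hz)
  have hsum : CircleIntegrable (fun z => ∑ i ∈ range (τ * S), (∏ k ∈ range i, (w - x k)) *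
        (f z / ∏ k ∈ range (i + 1), (z - x k))) 0 ρ := by
    exact CircleIntegrable.fun_sum _ hint1
  rw [hker, circleIntegral.integral_add hsum hint2, circleIntegral.integral_fun_sum hint1] at hc
  have hDD : ∀ i ∈ range (τ * S), (2 * Real.pi * Complex.I : ℂ)⁻¹ *
      (∮ z in C(0, ρ), (∏ k ∈ range i, (w - x k)) * (f z / ∏ k ∈ range (i + 1), (z - x k))) =
      DD f τ ρ 0 i * ∏ k ∈ range i, (w - nd τ k) := by
    intro i hi
    rw [Finset.mem_range] at hi
    rw [circleIntegral.integral_const_mul]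
    unfold DD
    have e1 : ∏ k ∈ range i, (w - x k) = ∏ k ∈ range i, (w - nd τ k) := by
      apply Finset.prod_congr rfl
      intro k hk
      rw [Finset.mem_range] at hk
      rw [hxe k (by omega)]
    have e2 : (∮ z in C(0, ρ), (f z / ∏ k ∈ range (i + 1), (z - x k))) =
        ∮ z in C(0, ρ), (f z / ∏ k ∈ range (i + 1), (z - nd τ (0 + k))) := by
      congr 1
      funext z
      congr 1
      apply Finset.prod_congr rfl
      intro k hk
      rw [Finset.mem_range] at hk
      rw [hxe k (by omega), zero_add]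
    rw [e1, e2]
    ring
  have hmain : f w - ∑ i ∈ range (τ * S), DD f τ ρ 0 i * ∏ k ∈ range i, (w - nd τ k) =
      (2 * Real.pi * Complex.I : ℂ)⁻¹ • ∮ z in C(0, ρ), f z * ((∏ k ∈ range (τ * S), (w - x k)) /
        ((∏ k ∈ range (τ * S), (z - x k)) * (z - w))) := by
    rw [← Finset.sum_congr rfl hDD, ← Finset.mul_sum]
    have : f w = (2 * Real.pi * Complex.I : ℂ)⁻¹ * (2 * Real.pi * Complex.I * f w) := by
      field_simp
    rw [this, ← hc, mul_add, smul_eq_mul]
    ring
  rw [hmain]
  have hbound : ∀ z ∈ Metric.sphere (0 : ℂ) ρ, ‖f z * ((∏ k ∈ range (τ * S), (w - x k)) /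
      ((∏ k ∈ range (τ * S), (z - x k)) * (z - w)))‖ ≤
      K * (((‖w‖ + S) / (ρ - S)) ^ (τ * S) / (ρ - ‖w‖)) := by
    intro z hz
    have hzn : ‖z‖ = ρ := by rwa [mem_sphere_zero_iff_norm] at hz
    rw [norm_mul, norm_div, norm_mul, norm_prod, norm_prod, div_pow, div_div]
    have h1 : ∏ k ∈ range (τ * S), ‖w - x k‖ ≤ (‖w‖ + S) ^ (τ * S) := by
      calc ∏ k ∈ range (τ * S), ‖w - x k‖ ≤ ∏ k ∈ range (τ * S), (‖w‖ + S) := by
            apply Finset.prod_le_prod (fun k _ => norm_nonneg _)
            intro k _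
            exact (norm_sub_le _ _).trans (by have := hxn k; linarith)
        _ = _ := by rw [Finset.prod_const, Finset.card_range]
    have h2 : (ρ - S) ^ (τ * S) ≤ ∏ k ∈ range (τ * S), ‖z - x k‖ := by
      calc (ρ - S) ^ (τ * S) = ∏ k ∈ range (τ * S), (ρ - S) := by
            rw [Finset.prod_const, Finset.card_range]
        _ ≤ _ := by
            apply Finset.prod_le_prod (fun k _ => by linarith)
            intro k _
            have := norm_sub_norm_le z (x k)
            have h' := hxn k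
            linarith
    have h3 : ρ - ‖w‖ ≤ ‖z - w‖ := by
      have := norm_sub_norm_le z w
      linarith
    have h4 : 0 < ρ - ‖w‖ := by linarith
    have h5 : 0 < (ρ - S) ^ (τ * S) := pow_pos (by linarith) _
    apply mul_le_mul (hfK z hzn) _ (by positivity) hK
    apply div_le_div₀ (by positivity) h1 (by positivity)
    exact mul_le_mul h2 h3 h4.le (h5.le.trans h2)
  refine (circleIntegral.norm_two_pi_i_inv_smul_integral_le_of_norm_le_const hρ.le hbound).trans ?_
  apply le_of_eq
  ring

end Pool.Agent.H78.BF
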