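import Pool.Agent.H72.BF.Targets

open Polynomial Finset

namespace Pool.Agent.H78.BF
open Pool.Agent.H72.BF

theorem WW_zero (τ : ℕ) : WW τ 0 = 1 := by simp [WW]

theorem WW_succ (τ ℓ : ℕ) : WW τ (ℓ + 1) = WW τ ℓ * ((max 1 ((ℓ + 1) / τ) : ℕ) : ℝ) := by
  unfold WW
  rw [Finset.prod_range_succ]

theorem one_le_factor (τ ℓ : ℕ) : (1 : ℝ) ≤ ((max 1 ((ℓ + 1) / τ) : ℕ) : ℝ) := by
  exact_mod_cast le_max_left 1 ((ℓ + 1) / τ)

theorem WW_pos (τ ℓ : ℕ) : 0 < WW τ ℓ := by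
  unfold WW
  exact Finset.prod_pos fun i _ => lt_of_lt_of_le one_pos (one_le_factor τ i)

theorem WW_mono (τ : ℕ) : ∀ (i k : ℕ), WW τ i ≤ WW τ (i + k) := by
  intro i k
  induction k with
  | zero => simp
  | succ k ih =>
    rw [← add_assoc, WW_succ]
    have := WW_pos τ (i + k)
    nlinarith [one_le_factor τ (i + k)]

theorem WW_one_le (τ i : ℕ) : 1 ≤ WW τ i := by
  have := WW_mono τ 0 i
  rwa [WW_zero, zero_add] at this

/-- multiplying `τ` factors which are all at least `q` -/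
theorem WW_block (τ q : ℕ) (hτ : 1 ≤ τ) : ∀ j ≤ τ,
    WW τ (q * τ) * (q : ℝ) ^ j ≤ WW τ (q * τ + j) := by
  intro j
  induction j with
  | zero => intro _; simp
  | succ j ih =>
    intro hj
    have h1 := ih (by omega)
    rw [← add_assoc, WW_succ, pow_succ, ← mul_assoc]
    have h2 : q ≤ (q * τ + j + 1) / τ := by
      rw [Nat.le_div_iff_mul_le (by omega)]
      omega
    have h3 : (q : ℝ) ≤ ((max 1 ((q * τ + j + 1) / τ) : ℕ) : ℝ) := by
      exact_mod_cast le_trans h2 (le_max_right _ _)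
    have h4 : 0 ≤ WW τ (q * τ) * (q : ℝ) ^ j := by
      have := WW_pos τ (q * τ)
      positivity
    exact mul_le_mul h1 h3 (by positivity) (WW_pos τ _).le

theorem WW_fact (τ : ℕ) (hτ : 1 ≤ τ) : ∀ q : ℕ,
    ((q.factorial : ℕ) : ℝ) ^ τ ≤ WW τ ((q + 1) * τ) := by
  intro q
  induction q with
  | zero =>
    simp
    exact WW_one_le τ _
  | succ q ih =>
    have h := WW_block τ (q + 1) hτ τ le_rfl
    have e : (q + 1) * τ + τ = (q + 1 + 1) * τ := by ring
    rw [e] at h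
    refine le_trans ?_ h
    rw [Nat.factorial_succ]
    push_cast
    rw [mul_pow, mul_comm]
    push_cast at h ih ⊢
    gcongr

theorem term_le (τ i : ℕ) (x : ℝ) (hτ : 1 ≤ τ) (hx : 0 ≤ x) :
    x ^ i / WW τ i ≤ (1 + x) ^ (2 * τ) * Real.exp (x * τ) := by
  rw [div_le_iff₀ (WW_pos τ i)]
  obtain ⟨q, r, hr, hi⟩ : ∃ q r : ℕ, r < τ ∧ i = q * τ + r :=
    ⟨i / τ, i % τ, Nat.mod_lt _ (by omega), by rw [mul_comm]; exact (Nat.div_add_mod i τ).symm⟩
  have hexp : 1 ≤ Real.exp (x * τ) := Real.one_le_exp (by positivity)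
  have h1x : (1 : ℝ) ≤ 1 + x := by linarith
  rcases Nat.eq_zero_or_pos q with hq | hq
  · subst hq
    have hi' : i ≤ 2 * τ := by omega
    have h1 : x ^ i ≤ (1 + x) ^ i := pow_le_pow_left₀ hx (by linarith) i
    have h2 : (1 + x) ^ i ≤ (1 + x) ^ (2 * τ) := pow_le_pow_right₀ h1x hi'
    have h3 := WW_one_le τ i
    have h0 : 0 ≤ (1 + x) ^ (2 * τ) := by positivity
    calc x ^ i ≤ (1 + x) ^ (2 * τ) := h1.trans h2
      _ = (1 + x) ^ (2 * τ) * 1 * 1 := by ring
      _ ≤ (1 + x) ^ (2 * τ) * Real.exp (x * τ) * WW τ i := by gcongr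
  · obtain ⟨p, rfl⟩ : ∃ p, q = p + 1 := ⟨q - 1, by omega⟩
    have hW : ((p.factorial : ℕ) : ℝ) ^ τ ≤ WW τ i := by
      rw [hi]
      exact (WW_fact τ hτ p).trans (WW_mono τ _ _)
    have hpe : x ^ p ≤ Real.exp x * ((p.factorial : ℕ) : ℝ) := by
      have := Real.pow_div_factorial_le_exp x hx p
      rwa [div_le_iff₀ (by exact_mod_cast p.factorial_pos)] at this
    have hsplit : x ^ i = (x ^ p) ^ τ * x ^ (τ + r) := by
      rw [hi, ← pow_mul, ← pow_add]
      congr 1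
      ring
    have h2 : x ^ (τ + r) ≤ (1 + x) ^ (2 * τ) :=
      (pow_le_pow_left₀ hx (by linarith) _).trans (pow_le_pow_right₀ h1x (by omega))
    have h3 : (x ^ p) ^ τ ≤ Real.exp (x * τ) * ((p.factorial : ℕ) : ℝ) ^ τ := by
      have := pow_le_pow_left₀ (by positivity) hpe τ
      rw [mul_pow, ← Real.exp_nat_mul, mul_comm (τ : ℝ) x] at this
      exact this
    rw [hsplit]
    have h0 : 0 ≤ x ^ (τ + r) := by positivity
    calc (x ^ p) ^ τ * x ^ (τ + r)
        ≤ (Real.exp (x * τ) * WW τ i) * (1 + x) ^ (2 * τ) := by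
          apply mul_le_mul _ h2 h0 (by have := WW_pos τ i; positivity)
          exact h3.trans (by gcongr)
      _ = _ := by ring

theorem wsm : T_WSM := by
  intro τ M x hτ hx
  calc ∑ i ∈ range M, x ^ i / WW τ i
      ≤ ∑ i ∈ range M, (1 + x) ^ (2 * τ) * Real.exp (x * τ) :=
        Finset.sum_le_sum fun i _ => term_le τ i x hτ hx
    _ = _ := by
        rw [Finset.sum_const, Finset.card_range, nsmul_eq_mul]
        ring

end Pool.Agent.H78.BF
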