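import Pool.Agent.H72.BF.Targets
import Pool.Agent.H78.BF.DDE
import Pool.Agent.H78.BF.DDN
import Pool.Agent.H78.BF.WSM

open Polynomial Finset

namespace Pool.Agent.H78.BF
open Pool.Agent.H72.BF

theorem nd_norm_lt' {τ S : ℕ} {ρ : ℝ} (hS : (S : ℝ) ≤ ρ) {k : ℕ} (hk : k < τ * S) :
    ‖nd τ k‖ < ρ := by
  unfold nd
  rw [Complex.norm_natCast]
  have : k / τ < S := Nat.div_lt_of_lt_mul hk
  have h2 : ((k / τ : ℕ) : ℝ) < S := by exact_mod_cast this
  linarith

theorem DD_rec (f : ℂ → ℂ) (τ S : ℕ) (ρ : ℝ) (hf : Differentiable ℂ f)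
    (hS : (S : ℝ) ≤ ρ) (ℓ a : ℕ) (ha : a + (ℓ + 1) < τ * S) :
    (nd τ (a + (ℓ + 1)) - nd τ a) * DD f τ ρ a (ℓ + 1) = DD f τ ρ (a + 1) ℓ - DD f τ ρ a ℓ := by
  have hρ : 0 < ρ := lt_of_le_of_lt (norm_nonneg (nd τ a)) (nd_norm_lt' hS (by omega))
  unfold DD
  rw [← mul_sub, mul_left_comm, ← circleIntegral.integral_const_mul,
    ← circleIntegral.integral_sub]
  · congr 1
    apply circleIntegral.integral_congr hρ.le
    intro z hz
    simp only
    have hne : ∀ k, k < ℓ + 1 + 1 → z - nd τ (a + k) ≠ 0 := fun k hk =>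
      ne_of_sphere (nd_norm_lt' hS (by omega)) hz
    have hA : ∏ k ∈ range (ℓ + 1 + 1), (z - nd τ (a + k)) =
        (∏ k ∈ range (ℓ + 1), (z - nd τ (a + 1 + k))) * (z - nd τ a) := by
      rw [Finset.prod_range_succ']
      simp only [add_zero]
      congr 1
      apply Finset.prod_congr rfl
      intro k _
      rw [show a + (k + 1) = a + 1 + k by ring]
    have hB : ∏ k ∈ range (ℓ + 1 + 1), (z - nd τ (a + k)) =
        (∏ k ∈ range (ℓ + 1), (z - nd τ (a + k))) * (z - nd τ (a + (ℓ + 1))) := by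
      rw [Finset.prod_range_succ]
    have hAne : ∏ k ∈ range (ℓ + 1), (z - nd τ (a + 1 + k)) ≠ 0 := by
      apply Finset.prod_ne_zero_iff.mpr
      intro k hk
      rw [Finset.mem_range] at hk
      have := hne (1 + k) (by omega)
      rwa [show a + (1 + k) = a + 1 + k by ring] at this
    have hBne : ∏ k ∈ range (ℓ + 1), (z - nd τ (a + k)) ≠ 0 := by
      apply Finset.prod_ne_zero_iff.mpr
      intro k hk
      rw [Finset.mem_range] at hk
      exact hne k (by omega)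
    have hx : z - nd τ a ≠ 0 := by simpa using hne 0 (by omega)
    have hy : z - nd τ (a + (ℓ + 1)) ≠ 0 := hne (ℓ + 1) (by omega)
    have hAB : (∏ k ∈ range (ℓ + 1), (z - nd τ (a + 1 + k))) * (z - nd τ a) =
        (∏ k ∈ range (ℓ + 1), (z - nd τ (a + k))) * (z - nd τ (a + (ℓ + 1))) := hA.symm.trans hB
    rw [hA]
    generalize ∏ k ∈ range (ℓ + 1), (z - nd τ (a + 1 + k)) = P at *
    generalize ∏ k ∈ range (ℓ + 1), (z - nd τ (a + k)) = Q at *
    generalize nd τ a = x at *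
    generalize nd τ (a + (ℓ + 1)) = y at *
    have hPQ : f z / Q = f z * (z - y) / (P * (z - x)) := by
      rw [hAB]
      field_simp
    have hPP : f z / P = f z * (z - x) / (P * (z - x)) := by
      field_simp
    rw [hPQ, hPP]
    ring
  · have := dd_integrable f ρ hρ.le hf (ℓ + 1) (fun k => nd τ (a + 1 + k))
      (fun k hk => by rw [Finset.mem_range] at hk; exact nd_norm_lt' hS (by omega))
    exact this
  · exact dd_integrable f ρ hρ.le hf (ℓ + 1) (fun k => nd τ (a + k))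
      (fun k hk => by rw [Finset.mem_range] at hk; exact nd_norm_lt' hS (by omega))

theorem WW_small (τ : ℕ) : ∀ ℓ, ℓ < τ → WW τ ℓ = 1 := by
  intro ℓ
  induction ℓ with
  | zero => intro _; exact WW_zero τ
  | succ ℓ ih =>
    intro h
    rw [WW_succ, ih (by omega), Nat.div_eq_of_lt h]
    simp

/-- recursive bound -/
theorem ddr : T_DDR := by
  intro f τ S ρ ε hf hτ hS hε hd ℓ
  induction ℓ with
  | zero =>
    intro a ha
    have hlt : a / τ < S := Nat.div_lt_of_lt_mul (by omega)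
    have hlt' : ((a / τ : ℕ) : ℝ) < ρ := by
      have : ((a / τ : ℕ) : ℝ) < S := by exact_mod_cast hlt
      linarith
    rw [dde f τ a 0 ρ hf hτ (by simp) hlt', WW_zero]
    have := hd (a / τ) hlt 0 (by omega)
    simpa [nd] using this
  | succ ℓ ih =>
    intro a ha
    have hlt : a / τ < S := Nat.div_lt_of_lt_mul (by omega)
    have hlt' : ((a / τ : ℕ) : ℝ) < ρ := by
      have : ((a / τ : ℕ) : ℝ) < S := by exact_mod_cast hlt
      linarith
    by_cases hcase : (a + (ℓ + 1)) / τ = a / τ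
    · have hl : ℓ + 1 < τ := by
        by_contra hcon
        have h1 : (a + τ) / τ ≤ (a + (ℓ + 1)) / τ := Nat.div_le_div_right (by omega)
        rw [Nat.add_div_right _ (by omega)] at h1
        omega
      rw [dde f τ a (ℓ + 1) ρ hf hτ hcase hlt', WW_small τ (ℓ + 1) hl, div_one, norm_div]
      have h1 := hd (a / τ) hlt (ℓ + 1) hl
      have h2 : (1 : ℝ) ≤ ‖(((ℓ + 1).factorial : ℕ) : ℂ)‖ := by
        rw [Complex.norm_natCast]
        exact_mod_cast Nat.one_le_iff_ne_zero.mpr (Nat.factorial_ne_zero _)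
      have h3 : ‖iteratedDeriv (ℓ + 1) f (nd τ a)‖ ≤ ε := h1
      calc ‖iteratedDeriv (ℓ + 1) f (nd τ a)‖ / ‖(((ℓ + 1).factorial : ℕ) : ℂ)‖
          ≤ ‖iteratedDeriv (ℓ + 1) f (nd τ a)‖ := div_le_self (norm_nonneg _) h2
        _ ≤ ε := h3
        _ ≤ ε * 2 ^ (ℓ + 1) := le_mul_of_one_le_right hε (one_le_pow₀ (by norm_num))
    · have hmono : a / τ ≤ (a + (ℓ + 1)) / τ := Nat.div_le_div_right (by omega)
      have hgt : a / τ < (a + (ℓ + 1)) / τ := by omega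
      have hrec := DD_rec f τ S ρ hf hS ℓ a ha
      have h1 := ih (a + 1) (by omega)
      have h2 := ih a (by omega)
      have hsum : (ℓ + 1) / τ + a / τ ≤ (a + (ℓ + 1)) / τ := by
        rw [add_comm a (ℓ + 1)]
        exact Nat.div_add_div_le_add_div
      have hnorm : ‖nd τ (a + (ℓ + 1)) - nd τ a‖ = ((a + (ℓ + 1)) / τ : ℕ) - ((a / τ : ℕ) : ℝ) := by
        unfold nd
        have : (((a + (ℓ + 1)) / τ : ℕ) : ℂ) - ((a / τ : ℕ) : ℂ) =
            (((((a + (ℓ + 1)) / τ : ℕ) : ℝ) - ((a / τ : ℕ) : ℝ) : ℝ) : ℂ) := by push_cast; ring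
        rw [this, Complex.norm_real, Real.norm_of_nonneg]
        have : ((a / τ : ℕ) : ℝ) ≤ (((a + (ℓ + 1)) / τ : ℕ) : ℝ) := by exact_mod_cast hmono
        linarith
      have hm : ((max 1 ((ℓ + 1) / τ) : ℕ) : ℝ) ≤
          (((a + (ℓ + 1)) / τ : ℕ) : ℝ) - ((a / τ : ℕ) : ℝ) := by
        rw [le_sub_iff_add_le]
        have : max 1 ((ℓ + 1) / τ) + a / τ ≤ (a + (ℓ + 1)) / τ := by omega
        exact_mod_cast this
      have hkey : ((max 1 ((ℓ + 1) / τ) : ℕ) : ℝ) * ‖DD f τ ρ a (ℓ + 1)‖ ≤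
          2 * (ε * 2 ^ ℓ / WW τ ℓ) := by
        calc ((max 1 ((ℓ + 1) / τ) : ℕ) : ℝ) * ‖DD f τ ρ a (ℓ + 1)‖
            ≤ ‖nd τ (a + (ℓ + 1)) - nd τ a‖ * ‖DD f τ ρ a (ℓ + 1)‖ := by
              rw [hnorm]
              exact mul_le_mul_of_nonneg_right hm (norm_nonneg _)
          _ = ‖DD f τ ρ (a + 1) ℓ - DD f τ ρ a ℓ‖ := by rw [← norm_mul, hrec]
          _ ≤ ‖DD f τ ρ (a + 1) ℓ‖ + ‖DD f τ ρ a ℓ‖ := norm_sub_le _ _
          _ ≤ _ := by linarith
      have hpos : (0 : ℝ) < ((max 1 ((ℓ + 1) / τ) : ℕ) : ℝ) :=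
        lt_of_lt_of_le one_pos (one_le_factor τ ℓ)
      rw [WW_succ, le_div_iff₀ (mul_pos (WW_pos τ ℓ) hpos)]
      have hW := WW_pos τ ℓ
      calc ‖DD f τ ρ a (ℓ + 1)‖ * (WW τ ℓ * ((max 1 ((ℓ + 1) / τ) : ℕ) : ℝ))
          = WW τ ℓ * (((max 1 ((ℓ + 1) / τ) : ℕ) : ℝ) * ‖DD f τ ρ a (ℓ + 1)‖) := by ring
        _ ≤ WW τ ℓ * (2 * (ε * 2 ^ ℓ / WW τ ℓ)) := by gcongr
        _ = ε * 2 ^ (ℓ + 1) := by
            field_simp
            ring

end Pool.Agent.H78.BF
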