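import Pool.Agent.H72.BF.Targets
import Pool.Agent.H78.BF.DDE
import Pool.Agent.H78.BF.DDN
import Pool.Agent.H78.BF.DDR
import Pool.Agent.H78.BF.WSM

open Polynomial Finset

namespace Pool.Agent.H78.BF
open Pool.Agent.H72.BF

/-- approximate Schwarz lemma -/
theorem sch : T_SCH := by
  intro f τ S ε K hf hτ hS hε hK hd hfK w hw
  have hS' : (1 : ℝ) ≤ S := by exact_mod_cast hS
  have h1 := ddn f τ S (16 * S) K w hf hτ (by linarith) (by linarith) hK
    (fun z hz => hfK z hz.le)
  have hrem : ((‖w‖ + S) / (16 * S - S)) ^ (τ * S) * (K * (16 * S) / (16 * S - ‖w‖)) ≤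
      2 * K * Real.exp (-(τ * S : ℝ)) := by
    have ha : (‖w‖ + S) / (16 * S - S) ≤ 1 / 5 := by
      rw [div_le_div_iff₀ (by linarith) (by norm_num)]
      linarith
    have hb : K * (16 * S) / (16 * S - ‖w‖) ≤ 2 * K := by
      rw [div_le_iff₀ (by linarith)]
      nlinarith
    have he : (1 / 5 : ℝ) ≤ Real.exp (-1) := by
      rw [Real.exp_neg, ← one_div]
      apply one_div_le_one_div_of_le (Real.exp_pos 1)
      linarith [Real.exp_one_lt_d9]
    have hc : ((‖w‖ + S) / (16 * S - S)) ^ (τ * S) ≤ Real.exp (-(τ * S : ℝ)) := by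
      calc ((‖w‖ + S) / (16 * S - S)) ^ (τ * S) ≤ (Real.exp (-1)) ^ (τ * S) :=
            pow_le_pow_left₀ (div_nonneg (by positivity) (by linarith)) (ha.trans he) _
        _ = Real.exp (-(τ * S : ℝ)) := by
            rw [← Real.exp_nat_mul]
            congr 1
            push_cast
            ring
    calc ((‖w‖ + S) / (16 * S - S)) ^ (τ * S) * (K * (16 * S) / (16 * S - ‖w‖))
        ≤ Real.exp (-(τ * S : ℝ)) * (2 * K) := by
          apply mul_le_mul hc hb _ (Real.exp_pos _).le
          apply div_nonneg (by positivity) (by linarith)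
      _ = _ := by ring
  have hsum : ‖∑ i ∈ range (τ * S), DD f τ (16 * S) 0 i * ∏ k ∈ range i, (w - nd τ k)‖ ≤
      ε * ((τ * S : ℝ) * (1 + 6 * S) ^ (2 * τ) * Real.exp (6 * S * τ)) := by
    have hw6 := wsm τ (τ * S) (6 * S) hτ (by positivity)
    calc ‖∑ i ∈ range (τ * S), DD f τ (16 * S) 0 i * ∏ k ∈ range i, (w - nd τ k)‖
        ≤ ∑ i ∈ range (τ * S), ‖DD f τ (16 * S) 0 i * ∏ k ∈ range i, (w - nd τ k)‖ :=
          norm_sum_le _ _
      _ ≤ ∑ i ∈ range (τ * S), ε * ((6 * S) ^ i / WW τ i) := by
          apply Finset.sum_le_sum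
          intro i hi
          rw [Finset.mem_range] at hi
          rw [norm_mul, norm_prod]
          have ha := ddr f τ S (16 * S) ε hf hτ (by linarith) hε hd i 0 (by omega)
          have hb : ∏ k ∈ range i, ‖w - nd τ k‖ ≤ (3 * S) ^ i := by
            calc ∏ k ∈ range i, ‖w - nd τ k‖ ≤ ∏ k ∈ range i, (3 * S : ℝ) := by
                  apply Finset.prod_le_prod (fun k _ => norm_nonneg _)
                  intro k hk
                  rw [Finset.mem_range] at hk
                  have h3 : ‖nd τ k‖ ≤ S := nd_norm_lt hτ (by omega)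
                  have h4 := norm_sub_le w (nd τ k)
                  linarith
              _ = _ := by rw [Finset.prod_const, Finset.card_range]
          calc ‖DD f τ (16 * S) 0 i‖ * ∏ k ∈ range i, ‖w - nd τ k‖
              ≤ (ε * 2 ^ i / WW τ i) * (3 * S) ^ i := by
                apply mul_le_mul ha hb (Finset.prod_nonneg fun k _ => norm_nonneg _)
                have := WW_pos τ i
                positivity
            _ = ε * ((6 * S) ^ i / WW τ i) := by
                rw [show (6 * S : ℝ) = 2 * (3 * S) by ring, mul_pow 2 (3 * (S : ℝ))]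
                ring
      _ = ε * ∑ i ∈ range (τ * S), (6 * S) ^ i / WW τ i := by rw [Finset.mul_sum]
      _ ≤ _ := by
          apply mul_le_mul_of_nonneg_left _ hε
          refine hw6.trans (le_of_eq ?_)
          push_cast
          ring
  calc ‖f w‖ = ‖(∑ i ∈ range (τ * S), DD f τ (16 * S) 0 i * ∏ k ∈ range i, (w - nd τ k)) +
        (f w - ∑ i ∈ range (τ * S), DD f τ (16 * S) 0 i * ∏ k ∈ range i, (w - nd τ k))‖ := by
          congr 1
          ring
    _ ≤ _ := (norm_add_le _ _).trans (add_le_add hsum (h1.trans hrem))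

end Pool.Agent.H78.BF
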